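import Pool.Agent.EWG.StmtsC

/-!
# EWG, row GOL: Goldfeld
-/

set_option autoImplicit false

namespace Pool.Agent.EWG.H80

open Finset

theorem th_nonneg (x l : ℕ) : 0 ≤ Th x l := by
  unfold Th
  apply Finset.sum_nonneg
  intro p _
  exact Real.log_natCast_nonneg p

theorem gol (h1 : PpwStmt) (h2 : TotStmt) (h3 : SwpStmt) (h4 : MdlStmt) (h5 : LoeStmt)
    (h6 : HieStmt) : GolStmt := by
  intro η hη
  obtain ⟨C1, hC1, hppw⟩ := h1
  obtain ⟨C2, hC2, hloe⟩ := h5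
  obtain ⟨C3, hC3, hhie⟩ := h6
  obtain ⟨X1, hX1⟩ := h2 (η / 8) (by positivity)
  obtain ⟨δ, hδ0, hδ1, hδ2⟩ : ∃ δ : ℝ, 0 < δ ∧ δ ≤ 1 / 4 ∧ (C2 + C3) * δ ≤ η / 8 := by
    refine ⟨min (1 / 4) (η / 8 / (C2 + C3)), by positivity, min_le_left _ _, ?_⟩
    calc (C2 + C3) * min (1 / 4) (η / 8 / (C2 + C3)) ≤ (C2 + C3) * (η / 8 / (C2 + C3)) :=
          mul_le_mul_of_nonneg_left (min_le_right _ _) (by positivity)
      _ = η / 8 := by field_simp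
  obtain ⟨X2, hX2⟩ := h4 δ δ (η / 8) hδ0 hδ0 (by positivity)
  obtain ⟨X3, hX3⟩ := exists_nat_gt (Real.exp ((C1 + C2 + C3) / η * 2))
  refine ⟨max (max X1 X2) (max X3 1), ?_⟩
  intro x hx
  have hx1 : X1 ≤ x := le_trans (le_trans (le_max_left _ _) (le_max_left _ _)) hx
  have hx2 : X2 ≤ x := le_trans (le_trans (le_max_right _ _) (le_max_left _ _)) hx
  have hx3 : X3 ≤ x := le_trans (le_trans (le_max_left _ _) (le_max_right _ _)) hx
  have hx4 : 1 ≤ x := le_trans (le_trans (le_max_right _ _) (le_max_right _ _)) hx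
  have hxR : (1 : ℝ) ≤ (x : ℝ) := by exact_mod_cast hx4
  have hx0 : (0 : ℝ) < (x : ℝ) := by linarith
  have hlog : (C1 + C2 + C3) / η * 2 ≤ Real.log x := by
    rw [Real.le_log_iff_exp_le hx0]
    have : (X3 : ℝ) ≤ (x : ℝ) := by exact_mod_cast hx3
    linarith
  have hlog' : C1 + C2 + C3 ≤ η / 2 * Real.log x := by
    have := mul_le_mul_of_nonneg_left hlog (by positivity : (0 : ℝ) ≤ η / 2)
    calc C1 + C2 + C3 = η / 2 * ((C1 + C2 + C3) / η * 2) := by field_simp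
      _ ≤ _ := this
  have hlog0 : 0 ≤ Real.log x := Real.log_nonneg hxR
  have hT := hX1 x hx1
  have hM := hX2 x hx2
  have hP := hppw x hx4
  have hL := hloe δ hδ0 (by linarith) x hx4
  have hH := hhie δ hδ0 (by linarith) x hx4
  have hS := h3 x
  set f : ℕ → ℝ := fun l => Real.log l * Th x l with hf
  have hf0 : ∀ l, 0 ≤ f l := fun l => mul_nonneg (Real.log_natCast_nonneg l) (th_nonneg x l)
  -- total
  have hP' : ∑ p ∈ pr (Icc 3 x), Real.log p * Real.log ((p : ℝ) - 1) -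
      ∑ p ∈ pr (Icc 3 x), Real.log p * ∑ l ∈ (p - 1).primeFactors, Real.log l ≤ C1 * x := by
    rw [← Finset.sum_sub_distrib]
    refine le_trans (le_of_eq ?_) hP
    apply Finset.sum_congr rfl
    intro p _
    ring
  -- split
  have hsplit : ∑ l ∈ pr (Icc 1 x), f l =
      ∑ l ∈ (pr (Icc 1 x)).filter (fun l : ℕ => 2 * x < l ^ 2), f l +
      ∑ l ∈ (pr (Icc 1 x)).filter (fun l : ℕ => ¬ 2 * x < l ^ 2), f l :=
    (Finset.sum_filter_add_sum_filter_not _ _ _).symm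
  set s1 := (pr (Icc 1 x)).filter (fun l : ℕ => (l : ℝ) ≤ (x : ℝ) ^ δ) with hs1
  set s2 := (pr (Icc 1 x)).filter
    (fun l : ℕ => (x : ℝ) ^ δ < l ∧ (l : ℝ) ≤ (x : ℝ) ^ (1 / 2 - δ)) with hs2
  set s3 := (pr (Icc 1 x)).filter
    (fun l : ℕ => (x : ℝ) ^ (1 / 2 - δ) < l ∧ l ^ 2 ≤ 2 * x) with hs3
  have hsub : (pr (Icc 1 x)).filter (fun l : ℕ => ¬ 2 * x < l ^ 2) ⊆ (s1 ∪ s2) ∪ s3 := by
    intro l hl
    rw [Finset.mem_filter] at hl
    obtain ⟨hl1, hl2⟩ := hl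
    rw [Finset.mem_union, Finset.mem_union, hs1, hs2, hs3, Finset.mem_filter, Finset.mem_filter,
      Finset.mem_filter]
    by_cases ha : (l : ℝ) ≤ (x : ℝ) ^ δ
    · exact Or.inl (Or.inl ⟨hl1, ha⟩)
    · by_cases hb : (l : ℝ) ≤ (x : ℝ) ^ (1 / 2 - δ)
      · exact Or.inl (Or.inr ⟨hl1, not_le.mp ha, hb⟩)
      · exact Or.inr ⟨hl1, not_le.mp hb, not_lt.mp hl2⟩
  have hle : ∑ l ∈ (pr (Icc 1 x)).filter (fun l : ℕ => ¬ 2 * x < l ^ 2), f l ≤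
      ∑ l ∈ s1, f l + ∑ l ∈ s2, f l + ∑ l ∈ s3, f l := by
    refine le_trans (Finset.sum_le_sum_of_subset_of_nonneg hsub fun l _ _ => hf0 l) ?_
    have e1 : ∑ l ∈ (s1 ∪ s2) ∪ s3, f l ≤ ∑ l ∈ s1 ∪ s2, f l + ∑ l ∈ s3, f l := by
      rw [← Finset.sum_union_inter]
      have : 0 ≤ ∑ l ∈ (s1 ∪ s2) ∩ s3, f l := Finset.sum_nonneg fun l _ => hf0 l
      linarith
    have e2 : ∑ l ∈ s1 ∪ s2, f l ≤ ∑ l ∈ s1, f l + ∑ l ∈ s2, f l := by
      rw [← Finset.sum_union_inter]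
      have : 0 ≤ ∑ l ∈ s1 ∩ s2, f l := Finset.sum_nonneg fun l _ => hf0 l
      linarith
    linarith
  have hxl : 0 ≤ (x : ℝ) * Real.log x := mul_nonneg hx0.le hlog0
  have k1 : (x : ℝ) * (C1 + C2 + C3) ≤ x * (η / 2 * Real.log x) :=
    mul_le_mul_of_nonneg_left hlog' hx0.le
  have k2 : (C2 + C3) * δ * (x * Real.log x) ≤ η / 8 * (x * Real.log x) :=
    mul_le_mul_of_nonneg_right hδ2 hxl
  have hηx : 0 ≤ η * (x * Real.log x) := mul_nonneg hη.le hxl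
  have hS' : ∑ p ∈ pr (Icc 3 x), Real.log p * ∑ l ∈ (p - 1).primeFactors, Real.log l =
    ∑ l ∈ pr (Icc 1 x), f l := hS
  have hL' : ∑ l ∈ s1, f l ≤ C2 * x * (δ * Real.log x + 1) := hL
  have hM' : ∑ l ∈ s2, f l ≤ (1 / 2 + η / 8) * x * Real.log x := hM
  have hH' : ∑ l ∈ s3, f l ≤ C3 * x * (δ * Real.log x + 1) := hH
  nlinarith [hT, hP', hS', hsplit, hle, hL', hM', hH', k1, k2, hηx]

end Pool.Agent.EWG.H80
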